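import Pool.Agent.helper84.NR.SpecW

/-!
# Project NRW (MP_133bfc_co): row RL2
-/

set_option autoImplicit false

namespace Pool.Agent.helper84.NR

open scoped Classical
open Finset

/-- Every face has at each of its vertices an edge which does not contain a given other vertex. -/
theorem RL2_edge {V F : Type} (M : PMap V F) (A : F) (x s : V) (hs : OnV M.toCyc A s)
    (hsx : s ≠ x) : ∃ e, s ∈ e ∧ x ∉ e ∧ OnE M.toCyc A e := by
  obtain ⟨k0, hk0⟩ := hs
  obtain ⟨hinj, -, -, -, hlast⟩ := h_IDX V F M.toCyc A k0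
  have h3 := M.three A
  by_cases h1 : x ∈ s(M.bd A k0, M.bd A (k0 + 1))
  · refine ⟨s(M.bd A (k0 + (M.len A - 1)), M.bd A (k0 + (M.len A - 1) + 1)), ?_, ?_, _, rfl⟩
    · have : k0 + (M.len A - 1) + 1 = k0 + M.len A := by omega
      rw [this, hlast, hk0]
      exact Sym2.mem_mk_right _ _
    · intro h2
      have hx1 : x = M.bd A (k0 + 1) := by
        rcases Sym2.mem_iff.mp h1 with h | h
        · exact absurd (h.trans hk0).symm hsx
        · exact h
      have hx2 : x = M.bd A (k0 + (M.len A - 1)) := by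
        rcases Sym2.mem_iff.mp h2 with h | h
        · exact h
        · have : k0 + (M.len A - 1) + 1 = k0 + M.len A := by omega
          rw [this, hlast, hk0] at h
          exact absurd h.symm hsx
      have := hinj 1 (M.len A - 1) (by omega) (by omega) (hx1.symm.trans hx2)
      omega
  · refine ⟨_, ?_, h1, k0, rfl⟩
    rw [hk0]
    exact Sym2.mem_mk_left _ _

theorem RL2_onV {V F : Type} (M : PMap V F) (A : F) (e : Sym2 V) (v : V)
    (he : OnE M.toCyc A e) (hv : v ∈ e) : OnV M.toCyc A v := by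
  obtain ⟨k, rfl⟩ := he
  rcases Sym2.mem_iff.mp hv with h | h
  · exact ⟨k, h.symm⟩
  · exact ⟨k + 1, h.symm⟩

/-- `RL` holds for both faces at `x` which contain `s`. -/
theorem RL2_swap (hSTE : STE_stmt) {V F : Type} [Fintype V] [Fintype F] (M : PMap V F) (x y : V)
    (J : Finset F) (hT : TopW M x y J) (q : Quot (lk M (inU M x y J))) (hq : Pure M x y J q)
    (A A' : F) (s : V) (h : RL M x y J q A s) (hAx : OnV M.toCyc A' x)
    (hAs : OnV M.toCyc A' s) : RL M x y J q A' s := by
  obtain ⟨h1, h2, -, h4, e, hse, hxe, hAe, hHe⟩ := h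
  have hsx : s ≠ x := fun h => hxe (h ▸ hse)
  obtain ⟨e', hse', hxe', hAe'⟩ := RL2_edge M A' x s hAs hsx
  exact ⟨hAx, h2, hAs, h4, e', hse', hxe', hAe',
    hSTE V F M x y J hT q hq s h4 e e' hse hse' ⟨hxe, A, h1, hAe⟩ ⟨hxe', A', hAx, hAe'⟩ hHe⟩

/-- Walk along a face at `x` all whose vertices are on no face at `y`. -/
theorem RL2_walk (hSTE : STE_stmt) {V F : Type} [Fintype V] [Fintype F] (M : PMap V F) (x y : V)
    (J : Finset F) (hT : TopW M x y J) (q : Quot (lk M (inU M x y J))) (hq : Pure M x y J q)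
    (A : F) (hAx : OnV M.toCyc A x)
    (hun : ∀ v, OnV M.toCyc A v → ¬ ∃ B, OnV M.toCyc B y ∧ OnV M.toCyc B v)
    (e e' : Sym2 V) (he : OnE M.toCyc A e) (hxe : x ∉ e) (he' : OnE M.toCyc A e')
    (hxe' : x ∉ e') (hH : Has M x y J q e) : Has M x y J q e' := by
  obtain ⟨k0, hk0⟩ := hAx
  obtain ⟨hinj, -, hedge, -, hlast⟩ := h_IDX V F M.toCyc A k0
  have h3 := M.three A
  have hbd0 : M.bd A (k0 + 0) = x := hk0
  have hnx : ∀ i, 1 ≤ i → i < M.len A → M.bd A (k0 + i) ≠ x := by
    intro i h1 h2 h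
    have := hinj i 0 h2 (by omega) (h.trans hbd0.symm)
    omega
  have hxE : ∀ i, 1 ≤ i → i + 1 < M.len A →
      x ∉ s(M.bd A (k0 + i), M.bd A (k0 + i + 1)) := by
    intro i h1 h2 h
    rcases Sym2.mem_iff.mp h with h | h
    · exact hnx i h1 (by omega) h.symm
    · exact hnx (i + 1) (by omega) h2 (by rw [← Nat.add_assoc]; exact h.symm)
  have hcx : ∀ i, 1 ≤ i → i + 1 < M.len A →
      cx M x s(M.bd A (k0 + i), M.bd A (k0 + i + 1)) := by
    intro i h1 h2
    exact ⟨hxE i h1 h2, A, ⟨k0, hk0⟩, k0 + i, rfl⟩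
  have hall : ∀ i, 1 ≤ i → i + 1 < M.len A →
      (Has M x y J q s(M.bd A (k0 + i), M.bd A (k0 + i + 1)) ↔
        Has M x y J q s(M.bd A (k0 + 1), M.bd A (k0 + 1 + 1))) := by
    intro i h1
    induction i, h1 using Nat.le_induction with
    | base => intro _; exact Iff.rfl
    | succ i h1 ih =>
      intro h2
      rw [← ih (by omega)]
      have hv : ¬ ∃ B, OnV M.toCyc B y ∧ OnV M.toCyc B (M.bd A (k0 + i + 1)) :=
        hun _ ⟨k0 + i + 1, rfl⟩
      have hm1 : M.bd A (k0 + i + 1) ∈ s(M.bd A (k0 + i), M.bd A (k0 + i + 1)) :=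
        Sym2.mem_mk_right _ _
      have hm2 : M.bd A (k0 + i + 1) ∈ s(M.bd A (k0 + (i + 1)), M.bd A (k0 + (i + 1) + 1)) := by
        rw [← Nat.add_assoc]
        exact Sym2.mem_mk_left _ _
      constructor
      · intro h
        exact hSTE V F M x y J hT q hq _ hv _ _ hm2 hm1 (hcx (i + 1) (by omega) h2)
          (hcx i h1 (by omega)) h
      · intro h
        exact hSTE V F M x y J hT q hq _ hv _ _ hm1 hm2 (hcx i h1 (by omega))
          (hcx (i + 1) (by omega) h2) h
  have hrep : ∀ f : Sym2 V, OnE M.toCyc A f → x ∉ f →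
      ∃ i, 1 ≤ i ∧ i + 1 < M.len A ∧ f = s(M.bd A (k0 + i), M.bd A (k0 + i + 1)) := by
    intro f hf hxf
    obtain ⟨a, ha, hfa⟩ := hedge f hf
    refine ⟨a, ?_, ?_, hfa⟩
    · by_contra h0
      have : a = 0 := by omega
      apply hxf
      rw [hfa, this, hbd0]
      exact Sym2.mem_mk_left _ _
    · by_contra h0
      have : k0 + a + 1 = k0 + M.len A := by omega
      apply hxf
      rw [hfa, this, hlast, hk0]
      exact Sym2.mem_mk_right _ _
  obtain ⟨i, hi1, hi2, rfl⟩ := hrep e he hxe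
  obtain ⟨j, hj1, hj2, rfl⟩ := hrep e' he' hxe'
  exact (hall j hj1 hj2).mpr ((hall i hi1 hi2).mp hH)

theorem RL2 (hSTE : STE_stmt) (hCLO : CLO_stmt) : RL2_stmt := by
  intro V F _ _ M x y J hT q hq hSP
  -- all pairs
  have hall : Even (univ.filter (fun p : F × V => RL M x y J q p.1 p.2)).card := by
    rw [card_eq_sum_card_fiberwise (f := Prod.snd) (t := univ) (fun p _ => mem_univ _)]
    apply Finset.even_sum
    intro s _
    by_cases hs : ∃ A, RL M x y J q A s
    · obtain ⟨A, hA⟩ := hs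
      have h2 := (h_DEG V F M x).2.1 s hA.2.1
      have : ((univ.filter (fun p : F × V => RL M x y J q p.1 p.2)).filter
          (fun p => p.2 = s)).card
          = (univ.filter (fun A => OnV M.toCyc A x ∧ OnV M.toCyc A s)).card := by
        refine card_bij' (fun p _ => p.1) (fun A _ => (A, s)) ?_ ?_ ?_ ?_
        · rintro ⟨A', s'⟩ h
          simp only [mem_filter, mem_univ, true_and] at h ⊢
          obtain ⟨h, rfl⟩ := h
          exact ⟨h.1, h.2.2.1⟩
        · intro A' h
          simp only [mem_filter, mem_univ, true_and] at h ⊢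
          exact ⟨RL2_swap hSTE M x y J hT q hq A A' s hA h.1 h.2, trivial⟩
        · rintro ⟨A', s'⟩ h
          simp only [mem_filter, mem_univ, true_and] at h ⊢
          rw [h.2]
        · intro A' h
          rfl
      rw [this, h2]
      exact even_two
    · have : ((univ.filter (fun p : F × V => RL M x y J q p.1 p.2)).filter
          (fun p => p.2 = s)) = ∅ := by
        rw [filter_eq_empty_iff]
        rintro ⟨A', s'⟩ h h'
        simp only [mem_filter, mem_univ, true_and] at h h'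
        exact hs ⟨A', h' ▸ h⟩
      rw [this, card_empty]
      exact Even.zero
  -- pairs with a face which is not in XM
  have hXM : ∀ A, A ∉ XM M x y → OnV M.toCyc A x → ∀ v, OnV M.toCyc A v →
      ¬ ∃ B, OnV M.toCyc B y ∧ OnV M.toCyc B v := by
    rintro A hA hAx v hAv ⟨B, hBy, hBv⟩
    apply hA
    unfold XM
    rw [mem_filter]
    exact ⟨mem_univ _, hAx, B, hBy, v, hAv, hBv⟩
  have hnot : Even (univ.filter (fun p : F × V => p.1 ∉ XM M x y ∧
      RL M x y J q p.1 p.2)).card := by
    rw [card_eq_sum_card_fiberwise (f := Prod.fst) (t := univ) (fun p _ => mem_univ _)]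
    apply Finset.even_sum
    intro A _
    by_cases hA : ∃ s, A ∉ XM M x y ∧ RL M x y J q A s
    · obtain ⟨s, hAX, hA⟩ := hA
      have h3 := (h_DEG V F M x).2.2.1 A hA.1
      have hsub : ((univ.filter (fun p : F × V => p.1 ∉ XM M x y ∧
          RL M x y J q p.1 p.2)).filter (fun p => p.1 = A)).card
          = (univ.filter (fun v => Adj M.toCyc x v ∧ OnV M.toCyc A v)).card := by
        refine card_bij' (fun p _ => p.2) (fun v _ => (A, v)) ?_ ?_ ?_ ?_
        · rintro ⟨A', s'⟩ h
          simp only [mem_filter, mem_univ, true_and] at h ⊢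
          obtain ⟨⟨_, h⟩, rfl⟩ := h
          exact ⟨h.2.1, h.2.2.1⟩
        · intro v h
          simp only [mem_filter, mem_univ, true_and] at h ⊢
          refine ⟨⟨hAX, ?_⟩, trivial⟩
          have hvx : v ≠ x := fun hvx => (h_EDG V F M).1 _ _ _
            ((h_EDG V F M).2 A x v h.1 hA.1 h.2) |>.2.2 hvx.symm
          obtain ⟨e', hve', hxe', hAe'⟩ := RL2_edge M A x v h.2 hvx
          obtain ⟨e, hse, hxe, hAe, hHe⟩ := hA.2.2.2.2
          exact ⟨hA.1, h.1, h.2, hXM A hAX hA.1 v h.2, e', hve', hxe', hAe',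
            RL2_walk hSTE M x y J hT q hq A hA.1 (hXM A hAX hA.1) e e' hAe hxe hAe' hxe' hHe⟩
        · rintro ⟨A', s'⟩ h
          simp only [mem_filter, mem_univ, true_and] at h ⊢
          rw [h.2]
        · intro v h
          rfl
      rw [hsub, h3]
      exact even_two
    · have : ((univ.filter (fun p : F × V => p.1 ∉ XM M x y ∧
          RL M x y J q p.1 p.2)).filter (fun p => p.1 = A)) = ∅ := by
        rw [filter_eq_empty_iff]
        rintro ⟨A', s'⟩ h h'
        simp only [mem_filter, mem_univ, true_and] at h h'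
        exact hA ⟨s', h' ▸ h⟩
      rw [this, card_empty]
      exact Even.zero
  have hsplit : (univ.filter (fun p : F × V => RL M x y J q p.1 p.2)).card
      = (univ.filter (fun p : F × V => p.1 ∈ XM M x y ∧ RL M x y J q p.1 p.2)).card
        + (univ.filter (fun p : F × V => p.1 ∉ XM M x y ∧ RL M x y J q p.1 p.2)).card := by
    rw [← card_filter_add_card_filter_not (s := univ.filter (fun p : F × V =>
      RL M x y J q p.1 p.2)) (fun p => p.1 ∈ XM M x y), filter_filter, filter_filter]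
    congr 2
    · ext p
      simp only [mem_filter, mem_univ, true_and]
      exact and_comm
    · ext p
      simp only [mem_filter, mem_univ, true_and]
      exact and_comm
  rw [hsplit] at hall
  have heven : Even (univ.filter (fun p : F × V => p.1 ∈ XM M x y ∧
      RL M x y J q p.1 p.2)).card := (Nat.even_add.mp hall).mpr hnot
  have hne : (univ.filter (fun p : F × V => p.1 ∈ XM M x y ∧
      RL M x y J q p.1 p.2)).card ≠ 0 := by
    intro h0
    rw [card_eq_zero, filter_eq_empty_iff] at h0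
    have hno : ∀ A s, RL M x y J q A s → A ∉ XM M x y := by
      intro A s h hX
      exact h0 (mem_univ (A, s)) ⟨hX, h⟩
    refine hCLO V F M x y J hT q hq
      {A | OnV M.toCyc A x ∧ A ∉ XM M x y ∧ ∃ e, x ∉ e ∧ OnE M.toCyc A e ∧ Has M x y J q e}
      ?_ ?_
    · obtain ⟨s, hadj, hun, e, hse, ⟨hxe, A, hAx, hAe⟩, hHe⟩ := hSP
      have hRL : RL M x y J q A s :=
        ⟨hAx, hadj, RL2_onV M A e s hAe hse, hun, e, hse, hxe, hAe, hHe⟩
      exact ⟨A, e, ⟨hAx, hno A s hRL, e, hxe, hAe, hHe⟩, hAx, hAe, hxe, hHe⟩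
    · rintro A e v ⟨_, hAX, _⟩ hAx hAe hxe hHe hve
      have hAv := RL2_onV M A e v hAe hve
      have hvx : v ≠ x := fun h => hxe (h ▸ hve)
      have hun := hXM A hAX hAx v hAv
      refine ⟨hun, ?_⟩
      intro A' hA'x hA'v
      by_cases hadj : Adj M.toCyc x v
      · have hRL : RL M x y J q A v := ⟨hAx, hadj, hAv, hun, e, hve, hxe, hAe, hHe⟩
        have hRL' := RL2_swap hSTE M x y J hT q hq A A' v hRL hA'x hA'v
        obtain ⟨e', _, hxe', hA'e', hHe'⟩ := hRL'.2.2.2.2
        exact ⟨hA'x, hno A' v hRL', e', hxe', hA'e', hHe'⟩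
      · have : A = A' := (h_DEG V F M x).1 v A A' hvx hadj hAx hAv hA'x hA'v
        rw [← this]
        exact ⟨hAx, hAX, e, hxe, hAe, hHe⟩
  obtain ⟨m, hm⟩ := heven
  omega

end Pool.Agent.helper84.NR
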